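import Mathlib

set_option autoImplicit false

/-! Simplicial boundary on functions on finsets of a linearly ordered finite type. -/

namespace Q36.SE

open Finset

section

variable {V : Type*} [LinearOrder V] {k : Type*} [Field k]

/-- sign -/
def sg (k : Type*) [Field k] (j : V) (T : Finset V) : k := (-1 : k) ^ (T.filter (· < j)).card

lemma sg_mul_self (j : V) (T : Finset V) : sg k j T * sg k j T = 1 := by
  unfold sg
  rw [← mul_pow]; simp

lemma sg_ne_zero (j : V) (T : Finset V) : sg k j T ≠ 0 := by
  intro h
  have := sg_mul_self (k := k) j T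
  rw [h, mul_zero] at this
  exact zero_ne_one this

lemma sg_insert {j i : V} {T : Finset V} (hi : i ∉ T) :
    sg k j (insert i T) = sg k j T * (if i < j then -1 else 1) := by
  unfold sg
  rw [Finset.filter_insert]
  split_ifs with h
  · rw [Finset.card_insert_of_notMem (by simp [hi]), pow_succ]
  · simp

lemma sg_swap {i j : V} {T : Finset V} (hij : i ≠ j) (hi : i ∉ T) (hj : j ∉ T) :
    sg k j T * sg k i (insert j T) + sg k i T * sg k j (insert i T) = 0 := by
  rw [sg_insert hj, sg_insert hi]
  rcases lt_or_gt_of_ne hij with h | h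
  · rw [if_neg (not_lt.mpr h.le), if_pos h]; ring
  · rw [if_pos h, if_neg (not_lt.mpr h.le)]; ring

variable [Fintype V]

/-- boundary -/
def bd (f : Finset V → k) (T : Finset V) : k := ∑ v ∈ Tᶜ, sg k v T * f (insert v T)

lemma bd_bd (f : Finset V → k) (T : Finset V) : bd (bd f) T = 0 := by
  unfold bd
  simp_rw [Finset.mul_sum, ← mul_assoc]
  rw [Finset.sum_sigma']
  refine Finset.sum_involution (fun x _ => ⟨x.2, x.1⟩) ?_ ?_ ?_ ?_
  · rintro ⟨j, i⟩ h
    simp only [Finset.mem_sigma, Finset.mem_compl, Finset.mem_insert, not_or] at h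
    obtain ⟨hj, hij, hi⟩ := h
    have := sg_swap (k := k) hij hi hj
    simp only
    rw [Finset.insert_comm j i T, ← add_mul, this, zero_mul]
  · rintro ⟨j, i⟩ h _ heq
    simp only [Finset.mem_sigma, Finset.mem_compl, Finset.mem_insert, not_or] at h
    have : i = j := by
      have := congrArg Sigma.fst heq
      simpa using this
    exact h.2.1 this
  · rintro ⟨j, i⟩ h
    simp only [Finset.mem_sigma, Finset.mem_compl, Finset.mem_insert, not_or] at h ⊢
    exact ⟨h.2.2, fun hh => h.2.1 hh.symm, h.1⟩
  · rintro ⟨j, i⟩ h
    rfl

lemma bd_single_of {S T : Finset V} {v : V} (hv : v ∉ T) (hS : insert v T = S) :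
    bd (Pi.single S (1 : k)) T = sg k v T := by
  unfold bd
  rw [Finset.sum_eq_single v]
  · rw [hS, Pi.single_eq_same, mul_one]
  · intro w hw hwv
    rw [Pi.single_eq_of_ne, mul_zero]
    rintro h
    rw [← hS] at h
    have : v ∈ insert w T := by rw [h]; exact mem_insert_self _ _
    rw [mem_insert] at this
    rcases this with h1 | h1
    · exact hwv h1.symm
    · exact hv h1
  · intro h
    exact absurd (by simpa using hv) h

lemma bd_single_ne {S T : Finset V} (h : bd (Pi.single S (1 : k)) T ≠ 0) :
    ∃ v ∉ T, insert v T = S := by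
  unfold bd at h
  obtain ⟨v, hv, h1⟩ := Finset.exists_ne_zero_of_sum_ne_zero h
  refine ⟨v, by simpa using hv, ?_⟩
  by_contra h2
  rw [Pi.single_eq_of_ne h2, mul_zero] at h1
  exact h1 rfl

lemma bd_add (f g : Finset V → k) (T : Finset V) : bd (f + g) T = bd f T + bd g T := by
  unfold bd
  rw [← Finset.sum_add_distrib]
  exact Finset.sum_congr rfl fun j _ => by rw [Pi.add_apply]; ring

lemma bd_smul (c : k) (f : Finset V → k) (T : Finset V) : bd (c • f) T = c * bd f T := by
  unfold bd
  rw [Finset.mul_sum]
  exact Finset.sum_congr rfl fun j _ => by rw [Pi.smul_apply, smul_eq_mul]; ring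

/-- The boundary of two tetrahedra glued along the triangle `{b, c, e}`. -/
lemma exists_cycle {a b c d e : V} (hab : a ≠ b) (hac : a ≠ c) (had : a ≠ d) (hae : a ≠ e)
    (hbc : b ≠ c) (hbd : b ≠ d) (hbe : b ≠ e) (hcd : c ≠ d) (hce : c ≠ e) (hde : d ≠ e) :
    ∃ z : Finset V → k, (∀ T, bd z T = 0) ∧ z {a, b, c} ≠ 0 ∧
      ∀ T, z T ≠ 0 → T = {a, b, c} ∨ T = {a, b, e} ∨ T = {a, c, e} ∨ T = {b, c, d} ∨
        T = {b, d, e} ∨ T = {c, d, e} := by
  have ha : a ∉ ({b, c, e} : Finset V) := by simp [hab, hac, hae]
  have hd : d ∉ ({b, c, e} : Finset V) := by simp [hbd.symm, hcd.symm, hde]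
  refine ⟨sg k a {b, c, e} • bd (Pi.single {a, b, c, e} 1) -
    sg k d {b, c, e} • bd (Pi.single {d, b, c, e} 1), ?_, ?_, ?_⟩
  · intro T
    rw [sub_eq_add_neg, ← neg_smul, bd_add, bd_smul, bd_smul, bd_bd, bd_bd, mul_zero, mul_zero,
      add_zero]
  · rw [Pi.sub_apply, Pi.smul_apply, Pi.smul_apply]
    have h1 : bd (Pi.single {d, b, c, e} (1 : k)) ({a, b, c} : Finset V) = 0 := by
      by_contra h
      obtain ⟨v, hv, h1⟩ := bd_single_ne h
      have : a ∈ ({d, b, c, e} : Finset V) := by rw [← h1]; simp
      simp [had, hab, hac, hae] at this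
    have h2 : bd (Pi.single {a, b, c, e} (1 : k)) ({a, b, c} : Finset V) = sg k e {a, b, c} := by
      apply bd_single_of
      · simp [hae.symm, hbe.symm, hce.symm]
      · ext x; simp only [mem_insert, mem_singleton]; tauto
    rw [h1, h2, smul_zero, sub_zero, smul_eq_mul]
    exact mul_ne_zero (sg_ne_zero _ _) (sg_ne_zero _ _)
  · intro T hT
    by_cases hT0 : T = {b, c, e}
    · exfalso
      apply hT
      rw [hT0, Pi.sub_apply, Pi.smul_apply, Pi.smul_apply, bd_single_of ha rfl,
        bd_single_of hd rfl, smul_eq_mul, smul_eq_mul, sg_mul_self, sg_mul_self, sub_self]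
    · rw [Pi.sub_apply, Pi.smul_apply, Pi.smul_apply] at hT
      have key : ∀ (x : V) (hx : x ∉ ({b, c, e} : Finset V)),
          bd (Pi.single (insert x {b, c, e}) (1 : k)) T ≠ 0 →
          T = {x, b, c} ∨ T = {x, b, e} ∨ T = {x, c, e} := by
        intro x hx h
        obtain ⟨v, hv, h1⟩ := bd_single_ne h
        have h2 : T = (insert x {b, c, e} : Finset V).erase v := by
          rw [← h1, erase_insert hv]
        have h3 : v ∈ (insert x {b, c, e} : Finset V) := by rw [← h1]; exact mem_insert_self _ _
        simp only [mem_insert, mem_singleton, not_or] at h3 hx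
        obtain ⟨hxb, hxc, hxe⟩ := hx
        rcases h3 with h3 | h3 | h3 | h3
        · exfalso
          apply hT0
          rw [h2, h3, erase_insert (by simp [hxb, hxc, hxe])]
        · right; right
          rw [h2, h3]
          ext y; simp only [mem_erase, mem_insert, mem_singleton]
          constructor
          · tauto
          · rintro (h | h | h) <;> subst h
            · exact ⟨hxb, by tauto⟩
            · exact ⟨hbc.symm, by tauto⟩
            · exact ⟨hbe.symm, by tauto⟩
        · right; left
          rw [h2, h3]
          ext y; simp only [mem_erase, mem_insert, mem_singleton]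
          constructor
          · tauto
          · rintro (h | h | h) <;> subst h
            · exact ⟨hxc, by tauto⟩
            · exact ⟨hbc, by tauto⟩
            · exact ⟨hce.symm, by tauto⟩
        · left
          rw [h2, h3]
          ext y; simp only [mem_erase, mem_insert, mem_singleton]
          constructor
          · tauto
          · rintro (h | h | h) <;> subst h
            · exact ⟨hxe, by tauto⟩
            · exact ⟨hbe, by tauto⟩
            · exact ⟨hce, by tauto⟩
      by_cases h1 : bd (Pi.single (insert a {b, c, e}) (1 : k)) T = 0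
      · have h2 : bd (Pi.single (insert d {b, c, e}) (1 : k)) T ≠ 0 := by
          intro h2
          apply hT
          rw [h1, h2, smul_zero, smul_zero, sub_zero]
        rcases key d hd h2 with h | h | h
        · right; right; right; left
          rw [h]; ext y; simp only [mem_insert, mem_singleton]; tauto
        · right; right; right; right; left
          rw [h]; ext y; simp only [mem_insert, mem_singleton]; tauto
        · right; right; right; right; right
          rw [h]; ext y; simp only [mem_insert, mem_singleton]; tauto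
      · rcases key a ha h1 with h | h | h
        · left; exact h
        · right; left; exact h
        · right; right; left; exact h

end

end Q36.SE
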