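import Mathlib

set_option autoImplicit false

/-!
Extremal ideals, their powers, Scarf complexes and the free resolutions supported on labelled
simplicial complexes.
-/

namespace Q36.SE

open Finset MvPolynomial

/-- The index set of the variables of `S_q`: the nonempty subsets of `[q]`. -/
abbrev NE (q : ℕ) : Type := {A : Finset (Fin q) // A.Nonempty}

/-- The generator `ε_i`, the product of the variables `x_A` with `i ∈ A`. -/
noncomputable def eps (k : Type*) [Field k] {q : ℕ} (i : Fin q) : MvPolynomial (NE q) k :=
  ∏ A : NE q, if i ∈ A.1 then X A else 1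

/-- The extremal ideal `E_q`. -/
noncomputable def extremal (k : Type*) [Field k] (q : ℕ) : Ideal (MvPolynomial (NE q) k) :=
  Ideal.span (Set.range (eps k))

/-- The vertices of the Taylor simplex of `E_q^r`: the vectors `a ∈ ℕ^q` with `a_1 + … + a_q = r`. -/
def V (q r : ℕ) : Type := {a : Fin q → ℕ // a ∈ Finset.piAntidiag (univ : Finset (Fin q)) r}

instance (q r : ℕ) : Fintype (V q r) :=
  inferInstanceAs (Fintype {a : Fin q → ℕ // a ∈ Finset.piAntidiag (univ : Finset (Fin q)) r})

variable {q r : ℕ}

/-- The exponent of the monomial `ε^a`: the variable `x_A` has exponent `∑_{i ∈ A} a_i`. -/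
noncomputable def lab (a : V q r) : NE q →₀ ℕ :=
  Finsupp.equivFunOnFinite.symm fun A => ∑ i ∈ A.1, a.1 i

/-- The exponent of the label `m_σ`, the least common multiple of the labels of the vertices. -/
noncomputable def lcmLab (σ : Finset (V q r)) : NE q →₀ ℕ := σ.sup lab

/-- The Scarf complex: the faces whose label is not the label of another face of the Taylor
simplex. -/
def scarf (q r : ℕ) : Set (Finset (V q r)) :=
  {σ | ∀ τ : Finset (V q r), lcmLab τ = lcmLab σ → τ = σ}

section

variable (k : Type*) [Field k] [LinearOrder (V q r)]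

/-- The differential of the homogenized chain complex: a chain is a function `c` assigning to a face
`σ` the coefficient `c σ` of `e_σ`, and `e_σ` is mapped to the sum of the
`± (m_σ / m_τ) e_τ` over the faces `τ = σ \ {v}`, with the sign `(-1)^#{u ∈ τ | u < v}`. -/
noncomputable def dif (c : Finset (V q r) → MvPolynomial (NE q) k) (τ : Finset (V q r)) :
    MvPolynomial (NE q) k :=
  ∑ v ∈ τᶜ, (-1) ^ (τ.filter (· < v)).card *
    (monomial (lcmLab (insert v τ) - lcmLab τ) (1 : k) * c (insert v τ))

end

variable (k : Type*) [Field k]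

/-- The free module in homological degree `i` of the homogenized chain complex of `X`, with basis the
faces of `X` with `i + 1` vertices. -/
def IsChain (X : Set (Finset (V q r))) (i : ℕ)
    (c : Finset (V q r) → MvPolynomial (NE q) k) : Prop :=
  ∀ σ, c σ ≠ 0 → σ ∈ X ∧ σ.card = i + 1

/-- The augmentation `e_{v} ↦ m_v`. -/
noncomputable def aug (c : Finset (V q r) → MvPolynomial (NE q) k) : MvPolynomial (NE q) k :=
  ∑ v, monomial (lab v) (1 : k) * c {v}

/-- The labelled complex `X` supports a free resolution of the ideal `I`: the augmented homogenized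
chain complex is exact. -/
def Supports [LinearOrder (V q r)] (X : Set (Finset (V q r)))
    (I : Ideal (MvPolynomial (NE q) k)) : Prop :=
  (∀ c, IsChain k X 0 c → aug k c ∈ I) ∧
  (∀ f ∈ I, ∃ c, IsChain k X 0 c ∧ aug k c = f) ∧
  (∀ c, IsChain k X 0 c → aug k c = 0 → ∃ b, IsChain k X 1 b ∧ dif k b = c) ∧
  (∀ i, 1 ≤ i → ∀ c, IsChain k X i c → dif k c = 0 → ∃ b, IsChain k X (i + 1) b ∧ dif k b = c)

end Q36.SE
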