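import Mathlib

set_option autoImplicit false

/-! Finite checks. -/

namespace Q36.SE

open Finset

/-- the five exponent vectors -/
def hpt : Fin 5 → Fin 6 → ℕ :=
  ![![0,1,1,1,3,0], ![0,1,2,1,2,0], ![0,2,1,1,2,0], ![0,2,2,1,1,0], ![1,0,0,0,4,1]]

/-- exponents of labels -/
def hv (i : Fin 5) (B : Finset (Fin 6)) : ℕ := ∑ j ∈ B, hpt i j

/-- exponents of least common multiples -/
def cc (σ : Finset (Fin 5)) (B : Finset (Fin 6)) : ℕ := σ.sup fun i => hv i B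

lemma d1 : ∀ (x0 : Fin 2) (x1 : Fin 3) (x2 : Fin 3) (x3 : Fin 2) (x4 : Fin 5) (x5 : Fin 2),
    x0.1 + x1.1 + x2.1 + x3.1 + x4.1 + x5.1 = 6 →
    (∀ B : Finset (Fin 6), ∑ j ∈ B, (![x0.1, x1.1, x2.1, x3.1, x4.1, x5.1] : Fin 6 → ℕ) j
      ≤ cc univ B) →
    ∃ i, ![x0.1, x1.1, x2.1, x3.1, x4.1, x5.1] = hpt i := by
  decide +kernel

lemma d2 : ∀ σ ∈ ({{0, 1, 2}, {0, 1, 4}, {0, 2, 4}, {1, 2, 3}, {1, 3, 4}, {2, 3, 4}} :
    Finset (Finset (Fin 5))), ∀ σ' : Finset (Fin 5), (∀ B, cc σ' B = cc σ B) → σ' = σ := by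
  decide +kernel

lemma d3 : ∀ B, cc {0, 1, 2, 3} B = cc {0, 3} B := by
  decide +kernel

lemma d4 : ∀ B, cc {0, 1, 2, 4} B = cc {1, 2, 4} B := by
  decide +kernel

end Q36.SE
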