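import Mathlib
import Pool.Agent.Q36.SE.Defs
import Pool.Agent.Q36.SE.Fin

set_option autoImplicit false

/-! The five generators dividing a suitable monomial. -/

namespace Q36.SE

open Finset

variable {q r : ℕ}

/-- restriction of a subset of `[q]` to the first six elements -/
def res (hq : 6 ≤ q) (A : Finset (Fin q)) : Finset (Fin 6) :=
  univ.filter fun j => Fin.castLE hq j ∈ A

lemma mem_res (hq : 6 ≤ q) (A : Finset (Fin q)) (j : Fin 6) :
    j ∈ res hq A ↔ Fin.castLE hq j ∈ A := by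
  simp [res]

lemma sum_fn (hq : 6 ≤ q) (f : Fin 6 → ℕ) (A : Finset (Fin q)) :
    ∑ j ∈ A, (if h : j.1 < 6 then f ⟨j.1, h⟩ else 0) = ∑ j ∈ res hq A, f j := by
  have h1 : ∑ j ∈ (res hq A).map (Fin.castLEEmb hq), (if h : j.1 < 6 then f ⟨j.1, h⟩ else 0) =
      ∑ j ∈ res hq A, f j := by
    rw [Finset.sum_map]
    exact sum_congr rfl fun j _ => by simp [j.2]
  rw [← h1]
  symm
  apply Finset.sum_subset
  · intro x hx
    rw [mem_map] at hx
    obtain ⟨y, hy, rfl⟩ := hx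
    rw [mem_res] at hy
    exact hy
  · intro x hx hx2
    rw [dif_neg]
    intro h
    apply hx2
    rw [mem_map]
    refine ⟨⟨x.1, h⟩, ?_, rfl⟩
    rw [mem_res]
    exact hx

/-- the exponent vectors -/
def ptf (q r : ℕ) (i : Fin 5) (j : Fin q) : ℕ :=
  if h : j.1 < 6 then (fun t : Fin 6 => hpt i t + if t = 0 then r - 6 else 0) ⟨j.1, h⟩ else 0

lemma sum_ptf (hq : 6 ≤ q) (i : Fin 5) (A : Finset (Fin q)) :
    ∑ j ∈ A, ptf q r i j = hv i (res hq A) + if (0 : Fin 6) ∈ res hq A then r - 6 else 0 := by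
  refine (sum_fn hq (fun t : Fin 6 => hpt i t + if t = 0 then r - 6 else 0) A).trans ?_
  rw [sum_add_distrib, Finset.sum_ite_eq']
  rfl

lemma hpt_sum : ∀ i, ∑ j, hpt i j = 6 := by decide

lemma res_univ (hq : 6 ≤ q) : res hq (univ : Finset (Fin q)) = univ := by
  ext j; simp [res]

/-- the five vertices -/
def pt (hq : 6 ≤ q) (hr : 6 ≤ r) (i : Fin 5) : V q r :=
  ⟨ptf q r i, by
    rw [mem_piAntidiag]
    refine ⟨?_, fun _ _ => mem_univ _⟩
    rw [sum_ptf hq, res_univ, if_pos (mem_univ _)]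
    unfold hv
    rw [hpt_sum]
    omega⟩

lemma pt_inj (hq : 6 ≤ q) (hr : 6 ≤ r) : Function.Injective (pt hq hr) := by
  intro i i' h
  have h1 : ∀ j : Fin 6, hpt i j = hpt i' j := by
    intro j
    have := congrFun (congrArg Subtype.val h) (Fin.castLE hq j)
    change ptf q r i _ = ptf q r i' _ at this
    unfold ptf at this
    rw [dif_pos (by exact j.2), dif_pos (by exact j.2)] at this
    exact Nat.add_right_cancel this
  have h2 : ∀ i i' : Fin 5, (∀ j, hpt i j = hpt i' j) → i = i' := by decide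
  exact h2 i i' h1

lemma lab_apply (a : V q r) (A : NE q) : lab a A = ∑ i ∈ A.1, a.1 i := rfl

lemma lab_pt (hq : 6 ≤ q) (hr : 6 ≤ r) (i : Fin 5) (A : NE q) :
    lab (pt hq hr i) A = hv i (res hq A.1) + if (0 : Fin 6) ∈ res hq A.1 then r - 6 else 0 := by
  rw [lab_apply]
  exact sum_ptf hq i A.1

lemma lcmLab_apply (σ : Finset (V q r)) (A : NE q) : lcmLab σ A = σ.sup fun a => lab a A := by
  unfold lcmLab
  exact Finset.apply_sup_eq_sup_comp (fun f : NE q →₀ ℕ => f A) (fun _ _ => rfl) rfl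

lemma le_lcmLab {σ : Finset (V q r)} {a : V q r} (h : a ∈ σ) : lab a ≤ lcmLab σ :=
  Finset.le_sup h

lemma lcmLab_mono {σ τ : Finset (V q r)} (h : σ ⊆ τ) : lcmLab σ ≤ lcmLab τ :=
  Finset.sup_mono h

lemma sup_add' {ι : Type*} (σ : Finset ι) (h : σ.Nonempty) (f : ι → ℕ) (s : ℕ) :
    (σ.sup fun i => f i + s) = σ.sup f + s := by
  apply le_antisymm
  · exact Finset.sup_le fun i hi => Nat.add_le_add_right (Finset.le_sup hi) s
  · obtain ⟨i, hi, h2⟩ := Finset.exists_mem_eq_sup σ h f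
    rw [h2]
    exact Finset.le_sup (f := fun i => f i + s) hi

/-- image of a set of indices -/
def im (hq : 6 ≤ q) (hr : 6 ≤ r) (σ : Finset (Fin 5)) : Finset (V q r) :=
  σ.map ⟨pt hq hr, pt_inj hq hr⟩

lemma lcm_im (hq : 6 ≤ q) (hr : 6 ≤ r) (σ : Finset (Fin 5)) (h : σ.Nonempty) (A : NE q) :
    lcmLab (im hq hr σ) A =
      cc σ (res hq A.1) + if (0 : Fin 6) ∈ res hq A.1 then r - 6 else 0 := by
  rw [lcmLab_apply]
  unfold im
  rw [Finset.sup_map]
  have : ((fun a => lab a A) ∘ (⟨pt hq hr, pt_inj hq hr⟩ : Fin 5 ↪ V q r)) =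
      fun i => hv i (res hq A.1) + if (0 : Fin 6) ∈ res hq A.1 then r - 6 else 0 := by
    funext i
    exact lab_pt hq hr i A
  rw [this, sup_add' σ h]
  rfl

lemma exists_res (hq : 6 ≤ q) (B : Finset (Fin 6)) (h : B.Nonempty) :
    ∃ A : NE q, res hq A.1 = B := by
  refine ⟨⟨B.map (Fin.castLEEmb hq), h.map⟩, ?_⟩
  ext j
  rw [mem_res, mem_map]
  constructor
  · rintro ⟨i, hi, h1⟩
    have : i = j := (Fin.castLEEmb hq).injective h1
    rw [← this]; exact hi
  · intro hj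
    exact ⟨j, hj, rfl⟩

lemma cc_empty (σ : Finset (Fin 5)) : cc σ ∅ = 0 := by
  unfold cc hv
  simp

lemma cc_eq_of (hq : 6 ≤ q) (hr : 6 ≤ r) {σ τ : Finset (Fin 5)} (hσ : σ.Nonempty)
    (hτ : τ.Nonempty) (h : lcmLab (im hq hr σ) = lcmLab (im hq hr τ)) (B : Finset (Fin 6)) :
    cc σ B = cc τ B := by
  rcases B.eq_empty_or_nonempty with h0 | h0
  · rw [h0, cc_empty, cc_empty]
  · obtain ⟨A, rfl⟩ := exists_res hq B h0
    have := DFunLike.congr_fun h A
    rw [lcm_im hq hr σ hσ, lcm_im hq hr τ hτ] at this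
    exact Nat.add_right_cancel this

lemma lcm_eq_of (hq : 6 ≤ q) (hr : 6 ≤ r) {σ τ : Finset (Fin 5)} (hσ : σ.Nonempty)
    (hτ : τ.Nonempty) (h : ∀ B, cc σ B = cc τ B) :
    lcmLab (im hq hr σ) = lcmLab (im hq hr τ) := by
  ext A
  rw [lcm_im hq hr σ hσ, lcm_im hq hr τ hτ, h]

lemma cc_tail : cc univ {1, 2, 3, 4, 5} = 6 := by decide +kernel

lemma cc_single : cc univ {0} = 1 ∧ cc univ {1} = 2 ∧ cc univ {2} = 2 ∧ cc univ {3} = 1 ∧
    cc univ {4} = 4 ∧ cc univ {5} = 1 := by decide +kernel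

lemma d1' (b : Fin 6 → ℕ) (hs : ∑ j, b j = 6) (hb : ∀ B, ∑ j ∈ B, b j ≤ cc univ B) :
    ∃ i, b = hpt i := by
  obtain ⟨c0, c1, c2, c3, c4, c5⟩ := cc_single
  have h0 := hb {0}
  have h1 := hb {1}
  have h2 := hb {2}
  have h3 := hb {3}
  have h4 := hb {4}
  have h5 := hb {5}
  rw [sum_singleton, c0] at h0
  rw [sum_singleton, c1] at h1
  rw [sum_singleton, c2] at h2
  rw [sum_singleton, c3] at h3
  rw [sum_singleton, c4] at h4
  rw [sum_singleton, c5] at h5
  have hbe : b = ![b 0, b 1, b 2, b 3, b 4, b 5] := by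
    funext j; fin_cases j <;> rfl
  rw [Fin.sum_univ_six] at hs
  have := d1 ⟨b 0, by omega⟩ ⟨b 1, by omega⟩ ⟨b 2, by omega⟩ ⟨b 3, by omega⟩ ⟨b 4, by omega⟩
    ⟨b 5, by omega⟩ hs (fun B => by
      have h := hb B
      rw [hbe] at h
      exact h)
  obtain ⟨i, hi⟩ := this
  exact ⟨i, hbe.trans hi⟩

lemma divisor (hq : 6 ≤ q) (hr : 6 ≤ r) (a : V q r) (h : lab a ≤ lcmLab (im hq hr univ)) :
    ∃ i, a = pt hq hr i := by
  have hA : ∀ A : NE q, ∑ j ∈ A.1, a.1 j ≤
      cc univ (res hq A.1) + if (0 : Fin 6) ∈ res hq A.1 then r - 6 else 0 := by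
    intro A
    have := h A
    rw [lcm_im hq hr univ univ_nonempty] at this
    exact this
  -- the entries beyond the sixth vanish
  have hbig : ∀ j : Fin q, ¬ j.1 < 6 → a.1 j = 0 := by
    intro j hj
    have h1 := hA ⟨{j}, singleton_nonempty j⟩
    have h2 : res hq ({j} : Finset (Fin q)) = ∅ := by
      ext t
      rw [mem_res, mem_singleton]
      simp only [notMem_empty, iff_false]
      intro h3
      apply hj
      rw [← h3]
      exact t.2
    rw [h2, cc_empty] at h1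
    simpa using h1
  set b : Fin 6 → ℕ := fun t => a.1 (Fin.castLE hq t) with hb
  have hab : ∀ j : Fin q, a.1 j = if h : j.1 < 6 then b ⟨j.1, h⟩ else 0 := by
    intro j
    split_ifs with h1
    · rfl
    · exact hbig j h1
  have hsum : ∀ A : Finset (Fin q), ∑ j ∈ A, a.1 j = ∑ j ∈ res hq A, b j := by
    intro A
    rw [← sum_fn hq b A]
    exact sum_congr rfl fun j _ => hab j
  have hB : ∀ B : Finset (Fin 6), ∑ j ∈ B, b j ≤
      cc univ B + if (0 : Fin 6) ∈ B then r - 6 else 0 := by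
    intro B
    rcases B.eq_empty_or_nonempty with h0 | h0
    · rw [h0]; simp
    · obtain ⟨A, rfl⟩ := exists_res hq B h0
      rw [← hsum]
      exact hA A
  have htot : ∑ j, b j = r := by
    rw [← res_univ hq, ← hsum]
    exact (mem_piAntidiag.1 a.2).1
  have htail := hB {1, 2, 3, 4, 5}
  rw [cc_tail, if_neg (by decide)] at htail
  have h05 : ∑ j, b j = b 0 + ∑ j ∈ ({1, 2, 3, 4, 5} : Finset (Fin 6)), b j := by
    rw [← Finset.sum_insert (by decide)]
    exact sum_congr (by decide) fun _ _ => rfl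
  have hb0 : r - 6 ≤ b 0 := by omega
  obtain ⟨i, hi⟩ := d1' (fun j => if j = 0 then b 0 - (r - 6) else b j) (by
    have : ∀ j, b j = (if j = 0 then b 0 - (r - 6) else b j) + if j = 0 then r - 6 else 0 := by
      intro j
      split_ifs with h1
      · rw [h1]; omega
      · rfl
    have h2 : ∑ j, b j = ∑ j : Fin 6, ((if j = 0 then b 0 - (r - 6) else b j) +
      if j = 0 then r - 6 else 0) := sum_congr rfl fun j _ => this j
    rw [sum_add_distrib, Finset.sum_ite_eq', if_pos (mem_univ _), htot] at h2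
    omega) (by
    intro B
    have : ∀ j, b j = (if j = 0 then b 0 - (r - 6) else b j) + if j = 0 then r - 6 else 0 := by
      intro j
      split_ifs with h1
      · rw [h1]; omega
      · rfl
    have h2 : ∑ j ∈ B, b j = ∑ j ∈ B, ((if j = 0 then b 0 - (r - 6) else b j) +
      if j = 0 then r - 6 else 0) := sum_congr rfl fun j _ => this j
    rw [sum_add_distrib, Finset.sum_ite_eq'] at h2
    have h3 := hB B
    omega)
  refine ⟨i, ?_⟩
  apply Subtype.ext
  funext j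
  change a.1 j = ptf q r i j
  rw [hab]
  unfold ptf
  split_ifs with h1
  · have h2 := congrFun hi ⟨j.1, h1⟩
    simp only at h2 ⊢
    rw [← h2]
    split_ifs with h3
    · rw [h3]; omega
    · rfl
  · rfl

lemma sub_im (hq : 6 ≤ q) (hr : 6 ≤ r) (τ : Finset (V q r))
    (h : lcmLab τ ≤ lcmLab (im hq hr univ)) :
    ∃ σ, τ = im hq hr σ := by
  classical
  refine ⟨univ.filter fun i => pt hq hr i ∈ τ, ?_⟩
  ext a
  unfold im
  rw [mem_map]
  constructor
  · intro ha
    obtain ⟨i, hi⟩ := divisor hq hr a ((le_lcmLab ha).trans h)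
    exact ⟨i, by rw [mem_filter, ← hi]; exact ⟨mem_univ _, ha⟩, hi.symm⟩
  · rintro ⟨i, hi, rfl⟩
    exact (mem_filter.1 hi).2

lemma lcm_ne_zero (hq : 6 ≤ q) (hr : 6 ≤ r) {σ : Finset (Fin 5)} (h : σ.Nonempty) :
    lcmLab (im hq hr σ) ≠ 0 := by
  intro h0
  obtain ⟨A, hA⟩ := exists_res hq (univ : Finset (Fin 6)) univ_nonempty
  have h1 := DFunLike.congr_fun h0 A
  rw [lcm_im hq hr σ h, hA] at h1
  have h2 : cc σ univ = 0 := by
    have : (0 : NE q →₀ ℕ) A = 0 := rfl
    omega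
  obtain ⟨i, hi⟩ := h
  have h3 : hv i univ ≤ cc σ univ := Finset.le_sup (f := fun i => hv i univ) hi
  have h4 : hv i univ = 6 := hpt_sum i
  omega

/-- The six triangles are faces of the Scarf complex. -/
lemma scarf_tri (hq : 6 ≤ q) (hr : 6 ≤ r) (σ : Finset (Fin 5))
    (h : σ ∈ ({{0, 1, 2}, {0, 1, 4}, {0, 2, 4}, {1, 2, 3}, {1, 3, 4}, {2, 3, 4}} :
      Finset (Finset (Fin 5)))) : im hq hr σ ∈ scarf q r := by
  intro τ hτ
  have hσ : σ.Nonempty := by
    rw [nonempty_iff_ne_empty]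
    rintro rfl
    revert h
    decide
  obtain ⟨σ', rfl⟩ := sub_im hq hr τ (by
    rw [hτ]
    exact lcmLab_mono (map_subset_map.2 (subset_univ _)))
  have hσ' : σ'.Nonempty := by
    rw [nonempty_iff_ne_empty]
    rintro rfl
    apply lcm_ne_zero hq hr hσ
    rw [← hτ]
    rfl
  rw [d2 σ h σ' (cc_eq_of hq hr hσ' hσ hτ)]

lemma not_scarf1 (hq : 6 ≤ q) (hr : 6 ≤ r) : im hq hr {0, 1, 2, 3} ∉ scarf q r := by
  intro h
  have h1 := h (im hq hr {0, 3}) (lcm_eq_of hq hr (by decide) (by decide) fun B => (d3 B).symm)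
  have h2 := congrArg card h1
  unfold im at h2
  rw [card_map, card_map] at h2
  revert h2
  decide

lemma not_scarf2 (hq : 6 ≤ q) (hr : 6 ≤ r) : im hq hr {0, 1, 2, 4} ∉ scarf q r := by
  intro h
  have h1 := h (im hq hr {1, 2, 4}) (lcm_eq_of hq hr (by decide) (by decide) fun B => (d4 B).symm)
  have h2 := congrArg card h1
  unfold im at h2
  rw [card_map, card_map] at h2
  revert h2
  decide

end Q36.SE
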