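import Mathlib
import Pool.Agent.Q36.SE.Pts
import Pool.Agent.Q36.SE.Bd

set_option autoImplicit false

/-! The Scarf complex of `E_q^r` has a non-bounding cycle. -/

namespace Q36.SE

open Finset MvPolynomial

variable {q r : ℕ} (k : Type*) [Field k]

lemma im_insert (hq : 6 ≤ q) (hr : 6 ≤ r) [LinearOrder (V q r)] (i : Fin 5) (σ : Finset (Fin 5)) :
    im hq hr (insert i σ) = insert (pt hq hr i) (im hq hr σ) := by
  unfold im
  rw [map_insert]
  rfl

lemma im_singleton (hq : 6 ≤ q) (hr : 6 ≤ r) (i : Fin 5) :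
    im hq hr {i} = {pt hq hr i} := by
  unfold im
  rw [map_singleton]
  rfl

lemma tri_card : ∀ σ ∈ ({{0, 1, 2}, {0, 1, 4}, {0, 2, 4}, {1, 2, 3}, {1, 3, 4}, {2, 3, 4}} :
    Finset (Finset (Fin 5))), σ.card = 2 + 1 := by decide

lemma tri_insert : ∀ i : Fin 5, i ∉ ({0, 1, 2} : Finset (Fin 5)) →
    insert i ({0, 1, 2} : Finset (Fin 5)) = {0, 1, 2, 3} ∨
      insert i ({0, 1, 2} : Finset (Fin 5)) = {0, 1, 2, 4} := by decide

theorem cycle (hq : 6 ≤ q) (hr : 6 ≤ r) [LinearOrder (V q r)] :
    ∃ c, IsChain k (scarf q r) 2 c ∧ dif k c = 0 ∧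
      ¬ ∃ b, IsChain k (scarf q r) 3 b ∧ dif k b = c := by
  have hinj := pt_inj hq hr
  obtain ⟨z, hz, hz1, hz2⟩ := exists_cycle (k := k) (a := pt hq hr 0) (b := pt hq hr 1)
    (c := pt hq hr 2) (d := pt hq hr 3) (e := pt hq hr 4)
    (hinj.ne (by decide)) (hinj.ne (by decide)) (hinj.ne (by decide)) (hinj.ne (by decide))
    (hinj.ne (by decide)) (hinj.ne (by decide)) (hinj.ne (by decide)) (hinj.ne (by decide))
    (hinj.ne (by decide)) (hinj.ne (by decide))
  have hzsup : ∀ T, z T ≠ 0 → ∃ σ ∈ ({{0, 1, 2}, {0, 1, 4}, {0, 2, 4}, {1, 2, 3}, {1, 3, 4},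
      {2, 3, 4}} : Finset (Finset (Fin 5))), T = im hq hr σ := by
    intro T hT
    rcases hz2 T hT with h | h | h | h | h | h
    · exact ⟨{0, 1, 2}, by decide, by rw [h, im_insert, im_insert, im_singleton]⟩
    · exact ⟨{0, 1, 4}, by decide, by rw [h, im_insert, im_insert, im_singleton]⟩
    · exact ⟨{0, 2, 4}, by decide, by rw [h, im_insert, im_insert, im_singleton]⟩
    · exact ⟨{1, 2, 3}, by decide, by rw [h, im_insert, im_insert, im_singleton]⟩
    · exact ⟨{1, 3, 4}, by decide, by rw [h, im_insert, im_insert, im_singleton]⟩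
    · exact ⟨{2, 3, 4}, by decide, by rw [h, im_insert, im_insert, im_singleton]⟩
  have hzle : ∀ T, z T ≠ 0 → lcmLab T ≤ lcmLab (im hq hr univ) := by
    intro T hT
    obtain ⟨σ, -, rfl⟩ := hzsup T hT
    exact lcmLab_mono (map_subset_map.2 (subset_univ _))
  set m := lcmLab (im hq hr univ) with hm
  refine ⟨fun T => monomial (m - lcmLab T) (z T), ?_, ?_, ?_⟩
  · intro T hT
    have hT' : z T ≠ 0 := by
      intro h
      apply hT
      simp only [h, map_zero]
    obtain ⟨σ, hσ, rfl⟩ := hzsup T hT'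
    refine ⟨scarf_tri hq hr σ hσ, ?_⟩
    unfold im
    rw [card_map]
    exact tri_card σ hσ
  · funext T
    have : dif k (fun T => monomial (m - lcmLab T) (z T)) T =
        monomial (m - lcmLab T) (bd z T) := by
      unfold dif bd
      rw [map_sum]
      refine sum_congr rfl fun v hv => ?_
      by_cases h0 : z (insert v T) = 0
      · simp only [h0, mul_zero, map_zero]
      · have h1 := hzle _ h0
        have h2 : lcmLab T ≤ lcmLab (insert v T) := lcmLab_mono (subset_insert _ _)
        rw [monomial_mul, one_mul]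
        have h3 : lcmLab (insert v T) - lcmLab T + (m - lcmLab (insert v T)) = m - lcmLab T := by
          rw [add_comm]
          exact tsub_add_tsub_cancel h1 h2
        rw [h3]
        unfold sg
        rw [← C_mul_monomial, map_pow, map_neg, map_one]
    rw [this, hz, map_zero]
    rfl
  · rintro ⟨b, hb, hbc⟩
    have h1 := congrArg (coeff (m - lcmLab (im hq hr {0, 1, 2})))
      (congrFun hbc (im hq hr {0, 1, 2}))
    rw [coeff_monomial, if_pos rfl] at h1
    have h2 : z (im hq hr {0, 1, 2}) ≠ 0 := by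
      rw [im_insert, im_insert, im_singleton]; exact hz1
    apply h2
    rw [← h1]
    unfold dif
    rw [coeff_sum]
    refine sum_eq_zero fun v hv => ?_
    set T := im hq hr {0, 1, 2} with hT
    by_contra h3
    have h4 : coeff (m - lcmLab T)
        (monomial (lcmLab (insert v T) - lcmLab T) (1 : k) * b (insert v T)) ≠ 0 := by
      intro h4
      apply h3
      have : ((-1 : MvPolynomial (NE q) k) ^ (T.filter (· < v)).card) =
          C ((-1 : k) ^ (T.filter (· < v)).card) := by
        rw [map_pow, map_neg, map_one]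
      rw [this, coeff_C_mul, h4, mul_zero]
    rw [coeff_monomial_mul'] at h4
    have h5 : lcmLab (insert v T) - lcmLab T ≤ m - lcmLab T := by
      by_contra h5
      rw [if_neg h5] at h4
      exact h4 rfl
    have h6 : lcmLab T ≤ m := lcmLab_mono (map_subset_map.2 (subset_univ _))
    have h7 : lcmLab (insert v T) ≤ m := by
      have := (tsub_le_iff_right.1 h5)
      rwa [tsub_add_cancel_of_le h6] at this
    obtain ⟨i, rfl⟩ := divisor hq hr v ((le_lcmLab (mem_insert_self _ _)).trans h7)
    rw [if_pos h5, one_mul] at h4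
    have h8 : b (insert (pt hq hr i) T) ≠ 0 := by
      intro h8
      rw [h8, coeff_zero] at h4
      exact h4 rfl
    have h9 := (hb _ h8).1
    rw [hT, ← im_insert] at h9
    have hi : i ∉ ({0, 1, 2} : Finset (Fin 5)) := by
      intro h10
      rw [mem_compl] at hv
      apply hv
      rw [hT]
      unfold im
      rw [mem_map]
      exact ⟨i, h10, rfl⟩
    have hi2 : insert i ({0, 1, 2} : Finset (Fin 5)) = {0, 1, 2, 3} ∨
        insert i ({0, 1, 2} : Finset (Fin 5)) = {0, 1, 2, 4} := by
      exact tri_insert i hi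
    rcases hi2 with h | h
    · rw [h] at h9
      exact not_scarf1 hq hr h9
    · rw [h] at h9
      exact not_scarf2 hq hr h9

end Q36.SE
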