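import Mathlib
import Pool.Agent.Q36.SE.Defs

set_option autoImplicit false

/-! The generators of `E_q^r`. -/

namespace Q36.SE

open Finset MvPolynomial

variable {q r : ℕ} (k : Type*) [Field k]

lemma prod_eps (a : V q r) : ∏ i, eps k i ^ a.1 i = monomial (lab a) (1 : k) := by
  unfold eps
  simp_rw [← Finset.prod_pow]
  rw [Finset.prod_comm, monomial_eq, C_1, one_mul, Finsupp.prod_fintype _ _ (fun _ => pow_zero _)]
  refine prod_congr rfl fun A _ => ?_
  have : ∀ i : Fin q, (if i ∈ A.1 then (X A : MvPolynomial (NE q) k) else 1) ^ a.1 i =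
      if i ∈ A.1 then X A ^ a.1 i else 1 := by
    intro i
    split_ifs
    · rfl
    · exact one_pow _
  rw [prod_congr rfl fun i _ => this i, ← Finset.prod_filter, Finset.filter_mem_eq_inter,
    univ_inter, Finset.prod_pow_eq_pow_sum]
  rfl

theorem pow_eq (r : ℕ) : extremal k q ^ r =
    Ideal.span (Set.range fun a : V q r => monomial (lab a) (1 : k)) := by
  have h0 : (fun a : V q r => monomial (lab a) (1 : k)) = fun a => ∏ i, eps k i ^ a.1 i :=
    funext fun a => (prod_eps k a).symm
  rw [h0]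
  apply le_antisymm
  · clear h0
    induction r with
    | zero =>
      rw [pow_zero, Ideal.one_eq_top, top_le_iff, Ideal.eq_top_iff_one]
      apply Ideal.subset_span
      refine ⟨⟨0, by rw [mem_piAntidiag]; simp⟩, ?_⟩
      simp
    | succ r ih =>
      rw [pow_succ]
      refine (Ideal.mul_mono_left ih).trans ?_
      unfold extremal
      rw [Ideal.span_mul_span', Ideal.span_le]
      rintro _ ⟨_, ⟨a, rfl⟩, _, ⟨i, rfl⟩, rfl⟩
      apply Ideal.subset_span
      have ha := a.2
      rw [mem_piAntidiag] at ha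
      refine ⟨⟨a.1 + Pi.single i 1, ?_⟩, ?_⟩
      · rw [mem_piAntidiag]
        refine ⟨?_, fun _ _ => mem_univ _⟩
        simp only [Pi.add_apply, sum_add_distrib, ha.1]
        rw [Finset.sum_pi_single', if_pos (mem_univ _)]
      · simp only [Pi.add_apply, pow_add, prod_mul_distrib]
        congr 1
        rw [Finset.prod_eq_single i]
        · rw [Pi.single_eq_same, pow_one]
        · intro j _ hj
          rw [Pi.single_eq_of_ne hj, pow_zero]
        · intro h; exact absurd (mem_univ _) h
  · rw [Ideal.span_le]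
    rintro _ ⟨a, rfl⟩
    have ha := (mem_piAntidiag.1 a.2).1
    have h1 : ∏ i, eps k i ^ a.1 i ∈ ∏ i, extremal k q ^ a.1 i :=
      Ideal.prod_mem_prod fun i _ => Ideal.pow_mem_pow (show eps k i ∈ extremal k q from Ideal.subset_span ⟨i, rfl⟩) _
    rw [Finset.prod_pow_eq_pow_sum, ha] at h1
    exact h1

theorem lab_le {a b : V q r} (h : lab a ≤ lab b) : a = b := by
  have h1 : ∀ i, a.1 i ≤ b.1 i := by
    intro i
    have := h ⟨{i}, singleton_nonempty i⟩
    change ∑ j ∈ {i}, a.1 j ≤ ∑ j ∈ {i}, b.1 j at this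
    rwa [sum_singleton, sum_singleton] at this
  apply Subtype.ext
  funext i
  have ha := (mem_piAntidiag.1 a.2).1
  have hb := (mem_piAntidiag.1 b.2).1
  by_contra hne
  have h2 : ∑ i, a.1 i < ∑ i, b.1 i :=
    sum_lt_sum (fun j _ => h1 j) ⟨i, mem_univ _, lt_of_le_of_ne (h1 i) hne⟩
  rw [ha, hb] at h2
  exact lt_irrefl _ h2

end Q36.SE
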